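import Pool.Agent.H27.GH.Targets

/-!
# NUM, NVC
-/

set_option autoImplicit false

namespace Pool.Agent.H62.GH

open Pool.Agent.H27.GH MvPolynomial

lemma num_aux (n u M q N : ℕ) (hM : 0 < M) (hMu : M ≤ 2 * u)
    (h : 2 * N * u ^ 2 < M ^ 2 * q) :
    ∃ w b : ℕ, w = 2 * N * u ^ 2 + 1 ∧
    q * N * (w * (w + 1)) < 2 * ((n + 2 + b) * (n + 1 + b)) ∧
    u * (2 * b) < M * (w * q) ∧ b ≤ w * q := by
  obtain ⟨G, hG⟩ : ∃ G, G = 2 * N * u ^ 2 := ⟨_, rfl⟩
  rw [← hG] at h ⊢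
  obtain ⟨A, hA⟩ : ∃ A, A = M * ((G + 1) * q) := ⟨_, rfl⟩
  have hq : 0 < q := by
    rcases Nat.eq_zero_or_pos q with h0 | h0
    · rw [h0] at h; simp at h
    · exact h0
  have hup : 0 < u := by omega
  have hAp : 1 ≤ A := by rw [hA]; exact Nat.mul_pos hM (Nat.mul_pos (Nat.succ_pos _) hq)
  obtain ⟨b, hb⟩ : ∃ b, b = (A - 1) / (2 * u) := ⟨_, rfl⟩
  have hb1 : 2 * u * b ≤ A - 1 := by rw [hb]; exact Nat.mul_div_le _ _
  have hb2 : A ≤ 2 * u * (b + 1) := by
    have := Nat.lt_mul_div_succ (A - 1) (show 0 < 2 * u by omega)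
    rw [← hb] at this
    omega
  refine ⟨G + 1, b, rfl, ?_, ?_, ?_⟩
  · have h1 : (2 * u) ^ 2 * (q * N * ((G + 1) * (G + 1 + 1))) ≤ 2 * A ^ 2 := by
      have e : (2 * u) ^ 2 * (q * N * ((G + 1) * (G + 1 + 1))) =
          2 * (q * (G + 1)) * (2 * N * u ^ 2 * (G + 1 + 1)) := by ring
      rw [e, ← hG]
      have h2 : G * (G + 1 + 1) ≤ (G + 1) * (M ^ 2 * q) := by
        have : (G + 1) * (G + 1) ≤ (G + 1) * (M ^ 2 * q) := Nat.mul_le_mul_left _ h
        nlinarith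
      calc 2 * (q * (G + 1)) * (G * (G + 1 + 1)) ≤
          2 * (q * (G + 1)) * ((G + 1) * (M ^ 2 * q)) := Nat.mul_le_mul_left _ h2
        _ = 2 * A ^ 2 := by rw [hA]; ring
    have h3 : 2 * A ^ 2 ≤ (2 * u) ^ 2 * (2 * (b + 1) ^ 2) := by
      have := Nat.pow_le_pow_left hb2 2
      calc 2 * A ^ 2 ≤ 2 * (2 * u * (b + 1)) ^ 2 := Nat.mul_le_mul_left _ this
        _ = (2 * u) ^ 2 * (2 * (b + 1) ^ 2) := by ring
    have h4 : 2 * (b + 1) ^ 2 < 2 * ((n + 2 + b) * (n + 1 + b)) := by nlinarith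
    have h5 : q * N * ((G + 1) * (G + 1 + 1)) ≤ 2 * (b + 1) ^ 2 :=
      Nat.le_of_mul_le_mul_left (h1.trans h3) (Nat.pow_pos (by omega))
    omega
  · have : u * (2 * b) = 2 * u * b := by ring
    rw [this, ← hA]
    omega
  · have h6 : 2 * u * b ≤ 2 * u * ((G + 1) * q) := by
      have : A ≤ 2 * u * ((G + 1) * q) := by
        rw [hA]
        exact Nat.mul_le_mul_right _ hMu
      omega
    exact Nat.le_of_mul_le_mul_left h6 (by omega)

/-- NUM. -/
theorem num : T_NUM := by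
  intro n m q hn hm h
  obtain ⟨n, rfl⟩ : ∃ n', n = n' + 2 := ⟨n - 2, by omega⟩
  obtain ⟨m, rfl⟩ : ∃ m', m = m' + 2 := ⟨m - 2, by omega⟩
  have e1 : n + 2 - 1 = n + 1 := by omega
  rw [e1] at h ⊢
  exact num_aux n (2 * (m + 2) - 1) (m + 2 - 1) q ((n + 2) * (n + 1)) (by omega) (by omega) h

section NVC

variable {K τ : Type} [CommRing K]

/-- Vanishing order at least `d`. -/
def Ord (d : ℕ) (f : MvPolynomial τ K) : Prop := ∀ m : τ →₀ ℕ, m.degree < d → coeff m f = 0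

lemma Ord.mul {a b : ℕ} {f g : MvPolynomial τ K} (hf : Ord a f) (hg : Ord b g) :
    Ord (a + b) (f * g) := by
  classical
  intro m hm
  rw [coeff_mul]
  refine Finset.sum_eq_zero fun x hx => ?_
  rw [Finset.HasAntidiagonal.mem_antidiagonal] at hx
  have hd : m.degree = x.1.degree + x.2.degree := by rw [← hx, map_add]
  by_cases h : x.1.degree < a
  · rw [hf _ h, zero_mul]
  · rw [hg _ (by omega), mul_zero]

lemma ord_zero (f : MvPolynomial τ K) : Ord 0 f := fun m hm => absurd hm (Nat.not_lt_zero _)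

lemma Ord.pow {f : MvPolynomial τ K} (hf : Ord 1 f) (k : ℕ) : Ord k (f ^ k) := by
  induction k with
  | zero => exact ord_zero _
  | succ k ih => rw [pow_succ]; exact ih.mul hf

lemma ord_prod {σ : Type} [DecidableEq σ] (g : σ → MvPolynomial τ K) (T : Finset σ)
    (hg : ∀ x ∈ T, Ord 1 (g x)) (κ : σ →₀ ℕ) (s : Finset σ) :
    Ord (∑ x ∈ s, if x ∈ T then κ x else 0) (∏ x ∈ s, g x ^ κ x) := by
  induction s using Finset.induction_on with
  | empty => exact ord_zero _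
  | insert a s ha ih =>
    rw [Finset.sum_insert ha, Finset.prod_insert ha]
    refine Ord.mul ?_ ih
    by_cases h : a ∈ T
    · rw [if_pos h]
      exact (hg a h).pow _
    · rw [if_neg h]
      exact ord_zero _

end NVC

/-- NVC. -/
theorem nvc : T_NVC := by
  classical
  intro R K _ _ σ τ ev g T M Q hg hQ m hm
  rw [coe_eval₂Hom, eval₂_eq, coeff_sum]
  refine Finset.sum_eq_zero fun κ _ => ?_
  by_cases h : ∑ x ∈ T, κ x ≤ M
  · rw [RingHom.comp_apply, hQ κ h, map_zero, zero_mul, coeff_zero]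
  · have h1 : ∀ x ∈ T, Ord 1 (g x) := by
      intro x hx n hn
      have : n = 0 := by
        have h0 : n.degree = 0 := by omega
        exact (Finsupp.degree_eq_zero_iff n).1 h0
      rw [this]
      exact hg x hx
    have h2 := (ord_zero ((C.comp ev) (coeff κ Q))).mul (ord_prod g T h1 κ κ.support)
    have h3 : ∑ x ∈ κ.support, (if x ∈ T then κ x else 0) = ∑ x ∈ T, κ x := by
      rw [← Finset.sum_filter]
      rw [Finset.filter_mem_eq_inter]
      refine Finset.sum_subset Finset.inter_subset_right ?_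
      intro x hxT hx
      by_contra hne
      exact hx (Finset.mem_inter.2 ⟨Finsupp.mem_support_iff.2 hne, hxT⟩)
    rw [h3] at h2
    exact h2 m (by omega)

end Pool.Agent.H62.GH
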