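import Pool.Agent.H27.GH.Targets

/-!
# SBH, EVB
-/

set_option autoImplicit false

namespace Pool.Agent.H62.GH

open Pool.Agent.H27.GH MvPolynomial SC Pool.Agent.H27.LV

section Bih

variable {R : Type} [CommRing R] {n : ℕ}

lemma bih_zero (b1 b2 : ℕ) : Bih b1 b2 (0 : MvPolynomial (Vr n) R) := by
  intro m hm
  simp at hm

lemma Bih.add {b1 b2 : ℕ} {P Q : MvPolynomial (Vr n) R} (hP : Bih b1 b2 P) (hQ : Bih b1 b2 Q) :
    Bih b1 b2 (P + Q) := by
  classical
  intro m hm
  rcases Finset.mem_union.1 (support_add hm) with h | h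
  · exact hP m h
  · exact hQ m h

lemma Bih.neg {b1 b2 : ℕ} {P : MvPolynomial (Vr n) R} (hP : Bih b1 b2 P) :
    Bih b1 b2 (-P) := by
  intro m hm
  rw [support_neg] at hm
  exact hP m hm

lemma Bih.sub {b1 b2 : ℕ} {P Q : MvPolynomial (Vr n) R} (hP : Bih b1 b2 P) (hQ : Bih b1 b2 Q) :
    Bih b1 b2 (P - Q) := by
  rw [sub_eq_add_neg]
  exact Bih.add hP (Bih.neg hQ)

lemma bih_sum {ι : Type} (s : Finset ι) (f : ι → MvPolynomial (Vr n) R) (b1 b2 : ℕ)
    (h : ∀ i ∈ s, Bih b1 b2 (f i)) : Bih b1 b2 (∑ i ∈ s, f i) := by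
  classical
  induction s using Finset.induction_on with
  | empty => exact bih_zero _ _
  | insert a s ha ih =>
    rw [Finset.sum_insert ha]
    exact Bih.add (h a (Finset.mem_insert_self _ _))
      (ih fun i hi => h i (Finset.mem_insert_of_mem hi))

lemma Bih.mul {b1 b2 c1 c2 : ℕ} {P Q : MvPolynomial (Vr n) R} (hP : Bih b1 b2 P)
    (hQ : Bih c1 c2 Q) : Bih (b1 + c1) (b2 + c2) (P * Q) := by
  classical
  intro m hm
  obtain ⟨x, hx, y, hy, rfl⟩ := Finset.mem_add.1 (support_mul P Q hm)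
  obtain ⟨p1, p2⟩ := hP x hx
  obtain ⟨q1, q2⟩ := hQ y hy
  simp only [Finsupp.add_apply, Finset.sum_add_distrib]
  exact ⟨by rw [p1, q1], by rw [p2, q2]⟩

lemma bih_C (c : R) : Bih 0 0 (C c : MvPolynomial (Vr n) R) := by
  classical
  intro m hm
  rw [mem_support_iff, coeff_C] at hm
  have : m = 0 := by
    by_contra h
    rw [if_neg (Ne.symm h)] at hm
    exact hm rfl
  rw [this]
  simp

lemma bih_Xl (s : Fin (n + 1)) : Bih 1 0 (X (Sum.inl s) : MvPolynomial (Vr n) R) := by
  classical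
  intro m hm
  rw [mem_support_iff, coeff_X'] at hm
  have : Finsupp.single (Sum.inl s) 1 = m := by
    by_contra h
    rw [if_neg h] at hm
    exact hm rfl
  rw [← this]
  constructor
  · rw [Finset.sum_eq_single s]
    · simp
    · intro b _ hb
      rw [Finsupp.single_apply, if_neg]
      intro h
      exact hb (Sum.inl_injective h).symm
    · simp
  · refine Finset.sum_eq_zero fun b _ => ?_
    rw [Finsupp.single_apply, if_neg]
    simp

lemma bih_Xr (s : Fin n) : Bih 0 1 (X (Sum.inr s) : MvPolynomial (Vr n) R) := by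
  classical
  intro m hm
  rw [mem_support_iff, coeff_X'] at hm
  have : Finsupp.single (Sum.inr s) 1 = m := by
    by_contra h
    rw [if_neg h] at hm
    exact hm rfl
  rw [← this]
  constructor
  · refine Finset.sum_eq_zero fun b _ => ?_
    rw [Finsupp.single_apply, if_neg]
    simp
  · rw [Finset.sum_eq_single s]
    · simp
    · intro b _ hb
      rw [Finsupp.single_apply, if_neg]
      intro h
      exact hb (Sum.inr_injective h).symm
    · simp

lemma Bih.pow {b1 b2 : ℕ} {P : MvPolynomial (Vr n) R} (hP : Bih b1 b2 P) (k : ℕ) :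
    Bih (k * b1) (k * b2) (P ^ k) := by
  induction k with
  | zero =>
    simp only [zero_mul, pow_zero]
    exact bih_C 1
  | succ k ih =>
    rw [pow_succ, Nat.succ_mul, Nat.succ_mul]
    exact Bih.mul ih hP

lemma bih_prod {ι : Type} (s : Finset ι) (f : ι → MvPolynomial (Vr n) R) (b1 b2 : ι → ℕ)
    (h : ∀ i ∈ s, Bih (b1 i) (b2 i) (f i)) :
    Bih (∑ i ∈ s, b1 i) (∑ i ∈ s, b2 i) (∏ i ∈ s, f i) := by
  classical
  induction s using Finset.induction_on with
  | empty => exact bih_C 1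
  | insert a s ha ih =>
    rw [Finset.prod_insert ha, Finset.sum_insert ha, Finset.sum_insert ha]
    exact Bih.mul (h a (Finset.mem_insert_self _ _))
      (ih fun i hi => h i (Finset.mem_insert_of_mem hi))

end Bih

/-- SBH. -/
theorem sbh : T_SBH := by
  classical
  intro R _ n b1 b2 a P hP
  unfold phi
  rw [coe_eval₂Hom, eval₂_eq']
  refine bih_sum _ _ _ _ fun m hm => ?_
  obtain ⟨h1, h2⟩ := hP m hm
  have hl : ∀ s : Fin (n + 2), Bih 1 0 ((Sum.elim
      (fun s => if s = 1 then X (Sum.inl 1) - ∑ r ∈ Finset.univ.erase 1, C (a r) * X (Sum.inl r)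
        else C (a 1) * X (Sum.inl s))
      (fun s => if s = 0 then X (Sum.inr 0) -
          ∑ r ∈ Finset.univ.erase (0 : Fin (n + 1)), C (a r.succ) * X (Sum.inr r)
        else C (a 1) * X (Sum.inr s)) : Vr (n + 1) → MvPolynomial (Vr (n + 1)) R) (Sum.inl s)) := by
    intro s
    simp only [Sum.elim_inl]
    split_ifs
    · refine Bih.sub (bih_Xl _) (bih_sum _ _ _ _ fun r _ => ?_)
      exact Bih.mul (bih_C _) (bih_Xl r)
    · exact Bih.mul (bih_C _) (bih_Xl s)
  have hr : ∀ s : Fin (n + 1), Bih 0 1 ((Sum.elim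
      (fun s => if s = 1 then X (Sum.inl 1) - ∑ r ∈ Finset.univ.erase 1, C (a r) * X (Sum.inl r)
        else C (a 1) * X (Sum.inl s))
      (fun s => if s = 0 then X (Sum.inr 0) -
          ∑ r ∈ Finset.univ.erase (0 : Fin (n + 1)), C (a r.succ) * X (Sum.inr r)
        else C (a 1) * X (Sum.inr s)) : Vr (n + 1) → MvPolynomial (Vr (n + 1)) R) (Sum.inr s)) := by
    intro s
    simp only [Sum.elim_inr]
    split_ifs
    · refine Bih.sub (bih_Xr _) (bih_sum _ _ _ _ fun r _ => ?_)
      exact Bih.mul (bih_C _) (bih_Xr r)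
    · exact Bih.mul (bih_C _) (bih_Xr s)
  rw [Fintype.prod_sum_type]
  have hL := bih_prod (Finset.univ : Finset (Fin (n + 2))) _
    (fun s => m (Sum.inl s) * 1) (fun s => m (Sum.inl s) * 0)
    (fun s _ => Bih.pow (hl s) (m (Sum.inl s)))
  have hR := bih_prod (Finset.univ : Finset (Fin (n + 1))) _
    (fun s => m (Sum.inr s) * 0) (fun s => m (Sum.inr s) * 1)
    (fun s _ => Bih.pow (hr s) (m (Sum.inr s)))
  have h := Bih.mul (bih_C (coeff m P)) (Bih.mul hL hR)
  simp only [mul_one, mul_zero, Finset.sum_const_zero, zero_add, add_zero, h1, h2] at h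
  exact h

lemma ge_pow' {k K : Type} [Field k] [Field K] [Algebra k K] (v : DV k K) {p : ℤ} {x : K}
    (h : ge v p x) (m : ℕ) : ge v (m * p) (x ^ m) := by
  induction m with
  | zero =>
    simp only [Nat.cast_zero, zero_mul, pow_zero]
    exact ge_one v
  | succ m ih =>
    rw [pow_succ]
    have := ih.mul h
    have e : ((m + 1 : ℕ) : ℤ) * p = m * p + p := by push_cast; ring
    rw [e]
    exact this

lemma ge_prod' {k K : Type} [Field k] [Field K] [Algebra k K] (v : DV k K) {ι : Type}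
    (s : Finset ι) (f : ι → K) (t : ι → ℤ) (h : ∀ i ∈ s, ge v (t i) (f i)) :
    ge v (∑ i ∈ s, t i) (∏ i ∈ s, f i) := by
  classical
  induction s using Finset.induction_on with
  | empty => exact ge_one v
  | insert a s ha ih =>
    rw [Finset.prod_insert ha, Finset.sum_insert ha]
    exact (h a (Finset.mem_insert_self _ _)).mul
      (ih fun i hi => h i (Finset.mem_insert_of_mem hi))

/-- EVB. -/
theorem evb : T_EVB := by
  classical
  intro k K _ _ _ v n b1 b2 R hR x y p1 p2 hx hy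
  rw [aeval_def, eval₂_eq']
  refine ge_sum v _ _ _ fun m hm => ?_
  obtain ⟨h1, h2⟩ := hR m hm
  rw [Fintype.prod_sum_type]
  have hL := ge_prod' v (Finset.univ : Finset (Fin (n + 1)))
    (fun s => (Sum.elim x y) (Sum.inl s) ^ m (Sum.inl s)) (fun s => (m (Sum.inl s) : ℤ) * p1)
    (fun s _ => ge_pow' v (hx s) _)
  have hR' := ge_prod' v (Finset.univ : Finset (Fin n))
    (fun s => (Sum.elim x y) (Sum.inr s) ^ m (Sum.inr s)) (fun s => (m (Sum.inr s) : ℤ) * p2)
    (fun s _ => ge_pow' v (hy s) _)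
  have h := (ge_const v (coeff m R)).mul (hL.mul hR')
  rw [← Finset.sum_mul, ← Finset.sum_mul, ← Nat.cast_sum, ← Nat.cast_sum, h1, h2, zero_add] at h
  exact h

end Pool.Agent.H62.GH
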